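import Pool.Agent.Work.MP_217185_an.Final

/-! The Teichmueller space of a bordered Riemann surface is a complex Hilbert manifold whose identity
component is the WP-class Teichmueller space and whose components are its right translates. -/

open Set QC

namespace Pool.Agent.Results.MP_217185_an.IdentityComponent

theorem result (S : Bord) :
    (∃ M₀ : CHM ↥(TWP S), IsStd S M₀ ∧
      ∀ M₁ : CHM ↥(TWP S), IsStd S M₁ → Biholo M₀ M₁ id univ univ) ∧
    ∃ M : CHM (Teich S), Good S M ∧
      ∀ M' : CHM (Teich S), Good S M' → Biholo M M' id univ univ := by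
  obtain ⟨M₀, h₀⟩ := exists_std S
  obtain ⟨M, h⟩ := QC.main S
  exact ⟨⟨M₀, h₀, fun M₁ h₁ => std_unique S M₀ M₁ h₀ h₁⟩,
    M, h, fun M' h' => good_unique S M M' h h'⟩

end Pool.Agent.Results.MP_217185_an.IdentityComponent
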